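import Pool.Agent.Helper57.SP.Core

set_option autoImplicit false

namespace Pool.Agent.Results.MP_94dfa5_al.FlexUnstable

open Pool.Agent.Helper57.SP

/-- The countable abelian group `Base = Z/2 ⊕ ⨁ₙ (Z/2^(n+1) ⊕ Z/2)` is stable in permutations, and
`Z/2` acts on it by automorphisms in such a way that the semidirect product is not stable in
permutations, and not even flexibly stable. -/
theorem result :
    Countable Base ∧ StableInPermutations Base ∧
      ∃ α : Multiplicative (ZMod 2) →* MulAut Base,
        ¬ StableInPermutations (SemidirectProduct Base (Multiplicative (ZMod 2)) α) ∧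
        ¬ FlexiblyStable (SemidirectProduct Base (Multiplicative (ZMod 2)) α) := by
  have hc : Countable Core.G := Core.countable_G
  refine ⟨hc, Core.stable_of_stab Core.G Core.stab_G, Core.phi, ?_, Core.not_flex⟩
  exact fun h => Core.not_flex (Core.flex_of_stable _ h)

end Pool.Agent.Results.MP_94dfa5_al.FlexUnstable
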